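import Pool.Agent.V5helper41.PD.Stm

/-! Project PD, job NOR -/

set_option autoImplicit false

namespace V5helper5.PD

open IntermediateField Polynomial
open Pool.Agent.H58P (Qb)
open Pool.Agent.W237.RK
open V5helper41.PD

/-- the restriction of an automorphism to a stable field -/
noncomputable def res (L : GF) (hL : Stable L) (σ : Aut) : L →+* L where
  toFun x := ⟨σ x, hL σ x x.2⟩
  map_one' := by ext; simp
  map_mul' x y := by ext; simp
  map_zero' := by ext; simp
  map_add' x y := by ext; simp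

theorem t_NOR (h : S_GAL) : S_NOR := by
  intro L α hL hP hα
  have instA : Algebra.IsAlgebraic ℚ Qb := AlgebraicClosure.isAlgebraic ℚ
  have instC : IsAlgClosure ℚ Qb := ⟨inferInstance, instA⟩
  have instN : Normal ℚ Qb := IsAlgClosure.normal ℚ Qb
  have hintQ : IsIntegral ℚ α := Algebra.IsIntegral.isIntegral α
  have hint : IsIntegral L α := hintQ.tower_top
  set f := minpoly L α with hf
  have hfm : f.Monic := minpoly.monic hint
  have h1 : ∀ (σ : Aut), σ α = α → f.map (res L hL σ) = f := by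
    intro σ hσ
    have h2 : aeval α (f.map (res L hL σ)) = 0 := by
      have h3 : eval₂ (algebraMap L Qb) α f = 0 := minpoly.aeval L α
      rw [aeval_def, eval₂_map]
      have h4 : (algebraMap L Qb).comp (res L hL σ) =
          (σ : Qb →+* Qb).comp (algebraMap L Qb) := by
        ext x; rfl
      rw [h4]
      have h5 := hom_eval₂ f (algebraMap L Qb) (σ : Qb →+* Qb) α
      have h6 : (σ : Qb →+* Qb) α = α := hσ
      rw [h3, map_zero, h6] at h5
      exact h5.symm
    have h5 : f ∣ f.map (res L hL σ) := minpoly.dvd L α h2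
    have h6 : (f.map (res L hL σ)).Monic := hfm.map _
    exact eq_of_monic_of_dvd_of_natDegree_le hfm h6 h5 (by rw [natDegree_map])
  have h7 : ∀ i, ((f.coeff i : L) : Qb) ∈ ℚ⟮α⟯ := by
    intro i
    refine h _ _ fun σ hσ => ?_
    have h8 := congrArg (fun p => p.coeff i) (h1 σ (hσ α (mem_adjoin_simple_self ℚ α)))
    simp only [coeff_map] at h8
    exact congrArg Subtype.val h8
  have hbot : L ⊓ ℚ⟮α⟯ = ⊥ := by
    rcases hP (L ⊓ ℚ⟮α⟯) inf_le_right with h9 | h9
    · exact h9
    · exfalso
      apply hα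
      have h10 : α ∈ L ⊓ ℚ⟮α⟯ := by
        rw [h9]
        exact mem_adjoin_simple_self ℚ α
      exact h10.1
  have h10 : ∀ i, ∃ r : ℚ, algebraMap ℚ Qb r = ((f.coeff i : L) : Qb) := by
    intro i
    have h11 : ((f.coeff i : L) : Qb) ∈ L ⊓ ℚ⟮α⟯ := ⟨(f.coeff i).2, h7 i⟩
    rw [hbot, mem_bot] at h11
    exact h11
  have h11 : f ∈ lifts (algebraMap ℚ L) := by
    rw [lifts_iff_coeff_lifts]
    intro i
    obtain ⟨r, hr⟩ := h10 i
    refine ⟨r, Subtype.ext ?_⟩
    rw [← hr]
    rfl
  obtain ⟨g, hg1, hg2, hg3⟩ := lifts_and_natDegree_eq_and_monic h11 hfm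
  have h12 : aeval α g = 0 := by
    have h13 : aeval α (g.map (algebraMap ℚ L)) = 0 := by
      rw [hg1]
      exact minpoly.aeval L α
    rwa [aeval_map_algebraMap] at h13
  have h13 : (minpoly ℚ α).natDegree ≤ f.natDegree := by
    rw [← hg2]
    exact natDegree_le_of_dvd (minpoly.dvd ℚ α h12) hg3.ne_zero
  have h14 : f ∣ (minpoly ℚ α).map (algebraMap ℚ L) := minpoly.dvd_map_of_isScalarTower ℚ L α
  have h15 : ((minpoly ℚ α).map (algebraMap ℚ L)).Monic := (minpoly.monic hintQ).map _
  have h16 := eq_of_monic_of_dvd_of_natDegree_le hfm h15 h14 (by rw [natDegree_map]; exact h13)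
  refine ⟨?_, fun g => ?_⟩
  · have h17 := congrArg natDegree h16
    rw [natDegree_map] at h17
    exact h17.symm
  · have h18 : aeval (g α) (minpoly L α) = 0 := by
      rw [← hf, ← h16, aeval_map_algebraMap]
      have h19 : aeval (g α) (minpoly ℚ α) = g (aeval α (minpoly ℚ α)) :=
        aeval_algHom_apply (g : Qb →ₐ[ℚ] Qb) α _
      rw [h19, minpoly.aeval, map_zero]
    have instL : Normal L Qb := Normal.tower_top_of_normal ℚ L Qb
    obtain ⟨s, hs⟩ := minpoly.exists_algEquiv_of_root' hint.isAlgebraic h18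
    exact ⟨s.restrictScalars ℚ, fun x hx => s.commutes ⟨x, hx⟩, hs⟩

end V5helper5.PD
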